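import Mathlib
import Pool.Agent.H836.HV.Base

set_option autoImplicit false
set_option linter.unusedSectionVars false

/-!
# The case `|V(-1)| < |V(a)|`
-/

namespace Pool.Agent.H836.HV

open Finset
open Pool.Agent.H315R3.ETC Pool.Agent.TH673.VG Pool.Agent.Q6.EV

open Classical

noncomputable section

variable {S : QData} (h : IsQuat S) [Fintype S.G]
variable {v : ℕ} (hv : ∀ a : S.G, a ≠ 1 → a ≠ S.neg → (V S a).card = v)

include h hv in
/-- the sum of the orders of the intersections -/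
theorem sum_r' {a : S.G} (ha1 : a ≠ 1) (ha2 : a ≠ S.neg) (ha3 : S.q a S.neg ≠ S.zero) :
    ∑ b, (V S a ∩ V S b).card + v = Fintype.card S.G + v * v := by
  rw [sum_r h a, ← add_sum_erase (V S a) _ (one_mem_V h a), V_one h, card_univ,
    sum_const_nat (m := v), card_erase_of_mem (one_mem_V h a), hv a ha1 ha2]
  · have h0 : 0 < v := by
      rw [← hv a ha1 ha2]
      exact card_pos.2 ⟨1, one_mem_V h a⟩
    obtain ⟨v', rfl⟩ : ∃ v', v = v' + 1 := ⟨v - 1, by omega⟩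
    rw [Nat.add_sub_cancel]
    ring
  · intro x hx
    rw [mem_erase] at hx
    refine hv x hx.1 ?_
    rintro rfl
    exact ha3 (mem_V.1 hx.2)

include h in
theorem four_ne (hne : S.neg ≠ 1) {a : S.G} (ha1 : a ≠ 1) (ha2 : a ≠ S.neg) :
    (1 : S.G) ≠ a ∧ (1 : S.G) ≠ S.neg ∧ (1 : S.G) ≠ S.neg * a ∧ a ≠ S.neg ∧ a ≠ S.neg * a ∧
      S.neg ≠ S.neg * a := by
  refine ⟨ha1.symm, hne.symm, (neg_ne_one h ha2).symm, ha2, ?_, (neg_ne_neg h ha1).symm⟩
  intro e
  exact hne (mul_eq_right.1 e.symm)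

include h in
theorem cap_neg (a : S.G) : V S a ∩ V S (S.neg * a) = V S a ∩ V S S.neg := by
  rw [mul_comm S.neg a, cap_mul h]

include h in
theorem mul_neg_self (a : S.G) : a * (S.neg * a) = S.neg := by
  rw [mul_left_comm, h.exp2, mul_one]

include h hv in
theorem QQ_neg {a : S.G} (ha1 : a ≠ 1) (ha2 : a ≠ S.neg) :
    (Qs S a ∩ Qs S S.neg).card * (V S a ∩ V S S.neg).card = v := by
  rw [card_QQ h, mul_comm a S.neg]
  exact hv _ (neg_ne_one h ha2) (neg_ne_neg h ha1)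

include h in
theorem QQ_nega (a : S.G) :
    (Qs S a ∩ Qs S (S.neg * a)).card * (V S a ∩ V S S.neg).card = (V S S.neg).card := by
  rw [← cap_neg h a, card_QQ h, mul_neg_self h]

include h hv in
theorem QQ_other {a b : S.G} (h1 : b ≠ a) (h2 : b ≠ S.neg * a) :
    (Qs S a ∩ Qs S b).card * (V S a ∩ V S b).card = v := by
  rw [card_QQ h]
  refine hv _ (fun e => h1 (eq_of_mul h _ _ e).symm) fun e => h2 ?_
  rw [← e, mul_right_comm, h.exp2, one_mul]

include h hv in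
theorem partA (hne : S.neg ≠ 1) (hwv : 2 * (V S S.neg).card ≤ v) (hv3 : 3 ≤ v) {a : S.G}
    (ha1 : a ≠ 1) (ha2 : a ≠ S.neg) (ha3 : S.q a S.neg ≠ S.zero)
    (hr : (V S a ∩ V S S.neg).card = 1) : False := by
  obtain ⟨w, hw⟩ : ∃ w, w = (V S S.neg).card := ⟨_, rfl⟩
  obtain ⟨N, hN⟩ : ∃ N, N = (Qs S a).card := ⟨_, rfl⟩
  rw [← hw] at hwv
  have hNv : N * v = Fintype.card S.G := by rw [hN, ← card_Qs h a, hv a ha1 ha2]
  obtain ⟨n1, n2, n3, n4, n5, n6⟩ := four_ne h hne ha1 ha2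
  set B : Finset S.G := univ.filter (fun x => x ≠ 1 ∧ x ≠ a ∧ x ≠ S.neg ∧ x ≠ S.neg * a) with hB
  -- cardinality of `B`
  have hBc : B.card + 4 = N * v := by
    have := sum_four n1 n2 n3 n4 n5 n6 (fun _ : S.G => 1)
    rw [← hB, sum_const, sum_const, card_univ, smul_eq_mul, smul_eq_mul, mul_one, mul_one] at this
    omega
  -- the sum of the `r`
  have hsr := sum_r' h hv ha1 ha2 ha3
  rw [sum_four n1 n2 n3 n4 n5 n6, V_inter_one h, hr, cap_neg h, hr, inter_self, hv a ha1 ha2,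
    ← hB, ← hNv] at hsr
  -- the sum of the `x`
  have hxe : (Qs S a ∩ Qs S S.neg).card = v := by
    have := QQ_neg h hv ha1 ha2
    rwa [hr, mul_one] at this
  have hxa : (Qs S a ∩ Qs S (S.neg * a)).card = w := by
    have := QQ_nega h a
    rwa [hr, mul_one, ← hw] at this
  have hsx := sum_slots h a
  rw [sum_four n1 n2 n3 n4 n5 n6, Qs_inter_one h, hxe, hxa, inter_self, ← hN, ← hB, ← hNv] at hsx
  -- the comparison on `B`
  have hkey : ∀ b ∈ B, (3 * (v : ℤ)) - v * ((V S a ∩ V S b).card : ℤ) ≤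
      2 * ((Qs S a ∩ Qs S b).card : ℤ) := by
    intro b hb
    rw [hB, mem_filter] at hb
    have e1 := QQ_other h hv hb.2.2.1 hb.2.2.2.2
    have e2 := one_mem_cap h a b
    obtain ⟨f, hf'⟩ : ∃ f : ℕ, f = (Qs S a ∩ Qs S b).card := ⟨_, rfl⟩
    obtain ⟨r, hr'⟩ : ∃ r : ℕ, r = (V S a ∩ V S b).card := ⟨_, rfl⟩
    rw [← hf', ← hr'] at e1
    rw [← hr'] at e2
    rw [← hf', ← hr']
    have e3 : (f : ℤ) * r = v := by exact_mod_cast e1
    have e4 : 0 ≤ ((r : ℤ) - 1) * (r - 2) := by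
      rcases (by omega : r = 1 ∨ 2 ≤ r) with e5 | e5
      · rw [e5]; norm_num
      · have e6 : (2 : ℤ) ≤ r := by exact_mod_cast e5
        exact mul_nonneg (by linarith) (by linarith)
    have e5 : 0 ≤ (f : ℤ) * (((r : ℤ) - 1) * (r - 2)) := mul_nonneg (by positivity) e4
    have e6 : (f : ℤ) * (((r : ℤ) - 1) * (r - 2)) = 2 * f - (3 - r) * v := by
      rw [← e3]; ring
    linarith
  have hkey2 := sum_le_sum hkey
  rw [sum_sub_distrib, sum_const, nsmul_eq_mul, ← mul_sum, ← mul_sum] at hkey2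
  -- the upper bound
  set T := (Qs S a).erase S.zero with hT
  have hTc : T.card + 1 = N := by
    rw [hT, card_erase_of_mem (zero_mem_Qs h a), ← hN]
    have : 0 < (Qs S a).card := card_pos.2 ⟨_, zero_mem_Qs h a⟩
    omega
  have hT1 : (T.filter (fun t => t ∈ Qs S S.neg)).card + 1 = v := by
    have : T.filter (fun t => t ∈ Qs S S.neg) = (Qs S a ∩ Qs S S.neg).erase S.zero := by
      ext t
      rw [mem_filter, hT, mem_erase, mem_erase, mem_inter]
      tauto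
    rw [this, card_erase_of_mem (mem_inter.2 ⟨zero_mem_Qs h a, zero_mem_Qs h _⟩), hxe]
    omega
  have hT2 : (T.filter (fun t => t ∈ Qs S S.neg)).card +
      (T.filter (fun t => ¬ t ∈ Qs S S.neg)).card = T.card := by
    rw [card_filter_add_card_filter_not]
  have hne0 : ∀ t ∈ T, ∀ x, x ∈ X S t → x ≠ 1 := by
    rintro t ht x hx rfl
    obtain ⟨z, hz⟩ := mem_X.1 hx
    rw [hT, mem_erase] at ht
    exact ht.1 (hz.symm.trans (q_one' h z))
  have hmX : ∀ t ∈ T, a ∈ X S t := by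
    intro t ht
    rw [hT, mem_erase] at ht
    exact mem_X.2 (mem_Qs.1 ht.2)
  have hle1 : ∀ t ∈ T.filter (fun t => t ∈ Qs S S.neg), (X S t).card ≤ 1 + w * (v - 1) := by
    intro t ht
    rw [mem_filter] at ht
    have m1 : S.neg ∈ X S t := mem_X.2 (mem_Qs.1 ht.2)
    refine (slots_le h m1).trans (Nat.add_le_add_left ?_ _)
    obtain ⟨z0, hz0⟩ := mem_Qs.1 ht.2
    have e1 : (C S t S.neg).card = w := by rw [card_C h hz0, hw]
    rw [← e1, ← smul_eq_mul, ← sum_const]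
    refine sum_le_sum fun z hz => ?_
    have m2 : z ∈ X S t := mem_X.2 ⟨S.neg, by rw [h.qs2]; exact mem_C.1 hz⟩
    have m3 := hne0 t ht.1 z m2
    by_cases hzn : z = S.neg
    · rw [hzn, ← hw]; omega
    · rw [hv z m3 hzn]
  have hle2 : ∀ t ∈ T.filter (fun t => ¬ t ∈ Qs S S.neg), (X S t).card ≤ 1 + v * (v - 1) := by
    intro t ht
    rw [mem_filter] at ht
    have m1 := hmX t ht.1
    refine (slots_le h m1).trans (Nat.add_le_add_left ?_ _)
    obtain ⟨z0, hz0⟩ := mem_X.1 m1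
    have e1 : (C S t a).card = v := by rw [card_C h hz0, hv a ha1 ha2]
    rw [← smul_eq_mul]
    conv_rhs => rw [← e1]
    rw [e1]
    conv_rhs => rw [← e1, ← sum_const]
    refine sum_le_sum fun z hz => ?_
    have m2 : z ∈ X S t := mem_X.2 ⟨a, by rw [h.qs2]; exact mem_C.1 hz⟩
    have m3 := hne0 t ht.1 z m2
    have hzn : z ≠ S.neg := by
      rintro rfl
      refine ht.2 (mem_Qs.2 ⟨a, ?_⟩)
      rw [h.qs2]; exact mem_C.1 hz
    rw [hv z m3 hzn]
    omega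
  have hup : ∑ t ∈ T, (X S t).card ≤
      (T.filter (fun t => t ∈ Qs S S.neg)).card * (1 + w * (v - 1)) +
      (T.filter (fun t => ¬ t ∈ Qs S S.neg)).card * (1 + v * (v - 1)) := by
    rw [← sum_filter_add_sum_filter_not T (fun t => t ∈ Qs S S.neg)]
    exact Nat.add_le_add (by rw [← smul_eq_mul, ← sum_const]; exact sum_le_sum hle1)
      (by rw [← smul_eq_mul, ← sum_const]; exact sum_le_sum hle2)
  -- integers
  obtain ⟨p, hp⟩ : ∃ p, p = (T.filter (fun t => t ∈ Qs S S.neg)).card := ⟨_, rfl⟩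
  obtain ⟨p', hp'⟩ : ∃ p', p' = (T.filter (fun t => ¬ t ∈ Qs S S.neg)).card := ⟨_, rfl⟩
  obtain ⟨σ, hσ⟩ : ∃ σ, σ = ∑ t ∈ T, (X S t).card := ⟨_, rfl⟩
  obtain ⟨x, hx⟩ : ∃ x, x = ∑ b ∈ B, (Qs S a ∩ Qs S b).card := ⟨_, rfl⟩
  obtain ⟨r, hr1⟩ : ∃ r, r = ∑ b ∈ B, (V S a ∩ V S b).card := ⟨_, rfl⟩
  have hxz : (x : ℤ) = ∑ b ∈ B, ((Qs S a ∩ Qs S b).card : ℤ) := by rw [hx]; push_cast; rfl
  have hrz : (r : ℤ) = ∑ b ∈ B, ((V S a ∩ V S b).card : ℤ) := by rw [hr1]; push_cast; rfl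
  rw [← hxz, ← hrz] at hkey2
  rw [← hp, ← hp', ← hσ] at hup
  rw [← hσ, ← hx] at hsx
  rw [← hr1] at hsr
  rw [← hp] at hT1 hT2
  rw [← hp'] at hT2
  have hupz : (σ : ℤ) ≤ p * (1 + w * (v - 1)) + p' * (1 + v * (v - 1)) := by
    have h1 : ((v - 1 : ℕ) : ℤ) = (v : ℤ) - 1 := by
      rw [Nat.cast_sub (by omega)]; norm_num
    have : (σ : ℤ) ≤ ((p * (1 + w * (v - 1)) + p' * (1 + v * (v - 1)) : ℕ) : ℤ) := by
      exact_mod_cast hup
    push_cast at this
    rw [h1] at this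
    exact this
  have z1 : (σ : ℤ) + N * v = 1 + N + v + w + x := by exact_mod_cast hsx
  have z2 : (v : ℤ) + v + 1 + 1 + r + v = N * v + v * v := by exact_mod_cast hsr
  have z3 : (p : ℤ) = v - 1 := by omega
  have z4 : (p' : ℤ) = N - v := by omega
  have z5 : (B.card : ℤ) = N * v - 4 := by
    have : ((B.card + 4 : ℕ) : ℤ) = ((N * v : ℕ) : ℤ) := by rw [hBc]
    push_cast at this
    linarith
  have z6 : 2 * (w : ℤ) ≤ v := by exact_mod_cast hwv
  have z7 : (3 : ℤ) ≤ v := by exact_mod_cast hv3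
  have z8 : (0 : ℤ) ≤ w := by positivity
  rw [z5] at hkey2
  rw [z3, z4] at hupz
  have z9 : (r : ℤ) = N * v + v * v - 3 * v - 2 := by linarith
  rw [z9] at hkey2
  have z10 : 2 * (w : ℤ) * (v - 1) ^ 2 ≤ v * (v - 1) ^ 2 :=
    mul_le_mul_of_nonneg_right z6 (sq_nonneg _)
  have z11 : 0 ≤ (v : ℤ) * (v - 3) := mul_nonneg (by linarith) (by linarith)
  clear hkey hle1 hle2 hne0 hmX
  clear_value T B
  have z12 : (x : ℤ) = σ + N * v - 1 - N - v - w := by linarith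
  rw [z12] at hkey2
  have z13 : 0 ≤ 2 * (((v : ℤ) - 1) * (1 + w * (v - 1)) + (N - v) * (1 + v * (v - 1))) +
      2 * (N * v - 1 - N - v - w) -
      ((N * v - 4) * (3 * v) - v * (N * v + v * v - 3 * v - 2)) := by linarith
  have z14 : 2 * (((v : ℤ) - 1) * (1 + w * (v - 1)) + (N - v) * (1 + v * (v - 1))) +
      2 * (N * v - 1 - N - v - w) -
      ((N * v - 4) * (3 * v) - v * (N * v + v * v - 3 * v - 2)) =
      (2 * (w : ℤ) * (v - 1) ^ 2 - v * (v - 1) ^ 2) - 3 * (v * (v - 3)) - 4 - 2 * w := by ring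
  rw [z14] at z13
  linarith

end

end Pool.Agent.H836.HV
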