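import Mathlib
import Pool.Agent.H836.HV.PartA

set_option autoImplicit false
set_option linter.unusedSectionVars false

/-!
# The case `|V(-1)| > |V(a)|`
-/

namespace Pool.Agent.H836.HV

open Finset
open Pool.Agent.H315R3.ETC Pool.Agent.TH673.VG Pool.Agent.Q6.EV

open Classical

noncomputable section

variable {S : QData} (h : IsQuat S) [Fintype S.G]
variable {v : ℕ} (hv : ∀ a : S.G, a ≠ 1 → a ≠ S.neg → (V S a).card = v)

include h hv in
/-- an element whose value group is disjoint from `V(-1)` up to `1` -/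
theorem exists_a (hwv : 2 * (V S S.neg).card ≤ v) (hG : v * v ≤ Fintype.card S.G) :
    ∃ a : S.G, a ≠ 1 ∧ a ≠ S.neg ∧ S.q a S.neg ≠ S.zero ∧ (V S a ∩ V S S.neg).card = 1 := by
  by_contra hcon
  push Not at hcon
  obtain ⟨w, hw⟩ : ∃ w, w = (V S S.neg).card := ⟨_, rfl⟩
  rw [← hw] at hwv
  have hw0 : 1 ≤ w := by rw [hw]; exact card_pos.2 ⟨1, one_mem_V h _⟩
  have h1 := sum_r h S.neg
  have h2 : ∑ x ∈ V S S.neg, (V S x).card ≤ Fintype.card S.G + (w - 1) * v := by
    rw [← add_sum_erase (V S S.neg) _ (one_mem_V h _), V_one h, card_univ]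
    refine Nat.add_le_add_left ?_ _
    have e1 : ((V S S.neg).erase 1).card = w - 1 := by
      rw [card_erase_of_mem (one_mem_V h _), hw]
    rw [← e1, ← smul_eq_mul, ← sum_const]
    refine sum_le_sum fun x hx => ?_
    by_cases hxn : x = S.neg
    · rw [hxn, ← hw]; omega
    · rw [hv x (mem_erase.1 hx).1 hxn]
  set A : Finset S.G := univ.filter (fun a => a ≠ S.neg ∧ a ∉ V S S.neg) with hA
  have hAc : Fintype.card S.G ≤ A.card + (w + 1) := by
    have hsub : (univ : Finset S.G) ⊆ A ∪ insert S.neg (V S S.neg) := by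
      intro a _
      rw [mem_union, hA, mem_filter, mem_insert]
      by_cases e1 : a = S.neg
      · exact Or.inr (Or.inl e1)
      · by_cases e2 : a ∈ V S S.neg
        · exact Or.inr (Or.inr e2)
        · exact Or.inl ⟨mem_univ _, e1, e2⟩
    have e1 := card_le_card hsub
    rw [card_univ] at e1
    refine e1.trans ((card_union_le _ _).trans (Nat.add_le_add_left ?_ _))
    rw [hw]
    exact card_insert_le _ _
  have h3 : Fintype.card S.G + A.card ≤ ∑ b, (V S S.neg ∩ V S b).card := by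
    have e1 : ∑ b : S.G, (1 + if b ∈ A then 1 else 0) = Fintype.card S.G + A.card := by
      rw [sum_add_distrib, sum_const, smul_eq_mul, mul_one, card_univ]
      congr 1
      rw [← card_filter]
      congr 1
      ext x
      simp
    rw [← e1]
    refine sum_le_sum fun b _ => ?_
    have e2 := one_mem_cap h S.neg b
    split_ifs with hb
    · rw [hA, mem_filter] at hb
      have e3 : S.q b S.neg ≠ S.zero := fun e => hb.2.2 (mem_V.2 (by rw [h.qs2]; exact e))
      have e4 : b ≠ 1 := by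
        rintro rfl
        exact hb.2.2 (one_mem_V h _)
      have e5 := hcon b e4 hb.2.1 e3
      rw [inter_comm] at e5
      omega
    · omega
  rw [h1] at h3
  have h4 : A.card ≤ (w - 1) * v := by omega
  obtain ⟨w', rfl⟩ : ∃ w', w = w' + 1 := ⟨w - 1, by omega⟩
  rw [Nat.add_sub_cancel] at h4
  have h5 : v * v ≤ w' * v + w' + 2 := by omega
  have h6 : 2 * (w' * v) + 2 * v ≤ v * v := by
    calc 2 * (w' * v) + 2 * v = (2 * (w' + 1)) * v := by ring
      _ ≤ v * v := Nat.mul_le_mul_right _ hwv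
  have h7 : w' * v + 2 * v ≤ w' + 2 := by omega
  have h8 : w' ≤ w' * v := Nat.le_mul_of_pos_right _ (by omega)
  omega

/-- the data of the sums over `b ≠ 1, -1` -/
theorem partB_data (h : IsQuat S) (hv : ∀ a : S.G, a ≠ 1 → a ≠ S.neg → (V S a).card = v)
    (hne : S.neg ≠ 1) {w M μ : ℕ} (hw : w = (V S S.neg).card) (hM : M = (Qs S S.neg).card)
    (hvw : v ≤ w) (hμ1 : v * (v - 1) ≤ μ) (hμ2 : w ≤ μ) {B : Finset S.G}
    (hB : B = univ.filter (fun x => x ≠ 1 ∧ x ≠ S.neg)) :
    B.card + 2 = Fintype.card S.G ∧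
    ∑ b ∈ B, (V S S.neg ∩ V S b).card + 2 * v + w ≤ Fintype.card S.G + w * v ∧
    ∑ b ∈ B, (Qs S S.neg ∩ Qs S b).card + M + 1 ≤ (M - 1) * (1 + μ) + Fintype.card S.G ∧
    ∀ b ∈ B, (Qs S S.neg ∩ Qs S b).card * (V S S.neg ∩ V S b).card = v := by
  have hBc : B.card + 2 = Fintype.card S.G := by
    have := sum_two hne.symm (fun _ : S.G => 1)
    rw [← hB, sum_const, sum_const, card_univ, smul_eq_mul, smul_eq_mul, mul_one, mul_one] at this
    omega
  have hw0 : 1 ≤ w := by rw [hw]; exact card_pos.2 ⟨1, one_mem_V h _⟩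
  refine ⟨hBc, ?_, ?_, ?_⟩
  · have h1 := sum_r h S.neg
    rw [sum_two hne.symm, ← hB, V_inter_one h, inter_self, ← hw] at h1
    have h2 : ∑ x ∈ V S S.neg, (V S x).card ≤
        Fintype.card S.G + ((w - 1) * v + (w - v)) := by
      rw [← add_sum_erase (V S S.neg) _ (one_mem_V h _), V_one h, card_univ]
      refine Nat.add_le_add_left ?_ _
      have e1 : ((V S S.neg).erase 1).card = w - 1 := by
        rw [card_erase_of_mem (one_mem_V h _), hw]
      have e2 : ∀ x ∈ (V S S.neg).erase 1, (V S x).card = v + if x = S.neg then w - v else 0 := by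
        intro x hx
        by_cases hxn : x = S.neg
        · rw [if_pos hxn, hxn, ← hw]; omega
        · rw [if_neg hxn, hv x (mem_erase.1 hx).1 hxn]; rfl
      rw [sum_congr rfl e2, sum_add_distrib, sum_const, e1, smul_eq_mul]
      refine Nat.add_le_add_left ?_ _
      rw [sum_ite_eq']
      split_ifs <;> omega
    obtain ⟨w', rfl⟩ : ∃ w', w = w' + 1 := ⟨w - 1, by omega⟩
    rw [Nat.add_sub_cancel] at h2
    have : (w' + 1) * v = w' * v + v := by ring
    omega
  · set T := (Qs S S.neg).erase S.zero with hT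
    have hM0 : 1 ≤ M := by rw [hM]; exact card_pos.2 ⟨_, zero_mem_Qs h _⟩
    have hTc : T.card = M - 1 := by
      rw [hT, card_erase_of_mem (zero_mem_Qs h _), ← hM]
    have hsx := sum_slots h S.neg
    rw [sum_two hne.symm, Qs_inter_one h, inter_self, ← hM, ← hB, ← hT] at hsx
    have hle : ∀ t ∈ T, (X S t).card ≤ 1 + μ := by
      intro t ht
      rw [hT, mem_erase] at ht
      have hne0 : ∀ x, x ∈ X S t → x ≠ 1 := by
        rintro x hx rfl
        obtain ⟨z, hz⟩ := mem_X.1 hx
        exact ht.1 (hz.symm.trans (q_one' h z))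
      by_cases hex : ∃ a ∈ X S t, a ≠ S.neg ∧ S.q a S.neg ≠ t
      · obtain ⟨a, ha, ha2, ha3⟩ := hex
        have ha1 := hne0 a ha
        refine (slots_le h ha).trans (Nat.add_le_add_left (le_trans ?_ hμ1) _)
        obtain ⟨z0, hz0⟩ := mem_X.1 ha
        have e1 : (C S t a).card = v := by rw [card_C h hz0, hv a ha1 ha2]
        have e2 : ∀ z ∈ C S t a, (V S z).card - 1 = v - 1 := by
          intro z hz
          have m2 : z ∈ X S t := mem_X.2 ⟨a, by rw [h.qs2]; exact mem_C.1 hz⟩
          have hzn : z ≠ S.neg := by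
            rintro rfl
            exact ha3 (mem_C.1 hz)
          rw [hv z (hne0 z m2) hzn]
        rw [sum_congr rfl e2, sum_const, e1, smul_eq_mul]
      · push Not at hex
        have hsub : X S t ⊆ insert S.neg (C S t S.neg) := by
          intro b hb
          by_cases hbn : b = S.neg
          · rw [hbn]; exact mem_insert_self _ _
          · refine mem_insert_of_mem (mem_C.2 ?_)
            rw [h.qs2]
            exact hex b hb hbn
        obtain ⟨z0, hz0⟩ := mem_Qs.1 ht.2
        have e1 : (C S t S.neg).card = w := by rw [card_C h hz0, hw]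
        refine (card_le_card hsub).trans ((card_insert_le _ _).trans ?_)
        rw [e1]
        omega
    have hup : ∑ t ∈ T, (X S t).card ≤ (M - 1) * (1 + μ) := by
      rw [← hTc, ← smul_eq_mul, ← sum_const]
      exact sum_le_sum hle
    omega
  · intro b hb
    rw [hB, mem_filter] at hb
    rw [card_QQ h]
    refine hv _ (neg_ne_one h hb.2.2) (neg_ne_neg h hb.2.1)

end

/-- `w` at least `v (v - 1)` -/
theorem numB3 {v w M G K x P : ℤ} (hv4 : 4 ≤ v) (hMw : M * w = G) (hw2 : 2 * w ≤ G)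
    (hK : K = G - 2) (hP : P + 2 * v + w ≤ G + w * v)
    (hx : x + M + 1 ≤ (M - 1) * (1 + w) + G) (hkey : 4 * v * K ≤ v * x + 4 * P) (hG : 0 < G) :
    False := by
  have h1 : x ≤ 2 * G - w - 2 := by
    have : (M - 1) * (1 + w) = M + G - 1 - w := by
      have : (M - 1) * (1 + w) = M + M * w - 1 - w := by ring
      rw [this, hMw]
    linarith
  have h2 : v * x ≤ v * (2 * G - w - 2) := mul_le_mul_of_nonneg_left h1 (by linarith)
  have h3 : w * (3 * v - 4) * 2 ≤ G * (3 * v - 4) := by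
    have := mul_le_mul_of_nonneg_right hw2 (show (0 : ℤ) ≤ 3 * v - 4 by linarith)
    linarith
  have h4 : 0 ≤ G * (v - 4) := mul_nonneg hG.le (by linarith)
  rw [hK] at hkey
  nlinarith

/-- `w ≤ N` -/
theorem numB1 {v w M N K x P : ℤ} (hv4 : 4 ≤ v) (hMw : M * w = N * v) (hw : 2 * v ≤ w)
    (hwN : w ≤ N) (hK : K = N * v - 2) (hP : P + 2 * v + w ≤ N * v + w * v)
    (hx : x + M + 1 ≤ (M - 1) * (1 + v * (v - 1)) + N * v) (hkey : 3 * v * K - v * P ≤ 2 * x) :
    False := by
  have h1 : 3 * v * (N * v - 2) - v * (N * v + w * v - 2 * v - w) ≤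
      2 * ((M - 1) * (1 + v * (v - 1)) + N * v - M - 1) := by
    have : v * P ≤ v * (N * v + w * v - 2 * v - w) :=
      mul_le_mul_of_nonneg_left (by linarith) (by linarith)
    rw [hK] at hkey
    linarith
  have h2 : 0 ≤ (v - 1) * (2 * M * v - 2 * (N * v) + w * v - 4 * (v - 1)) := by
    have : (v - 1) * (2 * M * v - 2 * (N * v) + w * v - 4 * (v - 1)) =
      2 * ((M - 1) * (1 + v * (v - 1)) + N * v - M - 1) -
      (3 * v * (N * v - 2) - v * (N * v + w * v - 2 * v - w)) := by ring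
    rw [this]
    linarith
  have h3 : 0 ≤ 2 * M * v - 2 * (N * v) + w * v - 4 * (v - 1) :=
    le_of_mul_le_mul_left (by rw [mul_zero]; exact h2) (show (0 : ℤ) < v - 1 by linarith)
  have hw0 : 0 < w := by linarith
  have h4 : 0 ≤ w * (2 * M * v - 2 * (N * v) + w * v - 4 * (v - 1)) := mul_nonneg hw0.le h3
  have h5 : w * (2 * M * v - 2 * (N * v) + w * v - 4 * (v - 1)) =
      2 * (N * v) * v - 2 * (N * v) * w + w * w * v - 4 * (v - 1) * w := by
    have : w * (2 * M * v - 2 * (N * v) + w * v - 4 * (v - 1)) =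
      2 * (M * w) * v - 2 * (N * v) * w + w * w * v - 4 * (v - 1) * w := by ring
    rw [this, hMw]
  rw [h5] at h4
  have h6 : 0 < 4 * (v - 1) * w := mul_pos (by linarith) hw0
  have h7 : 2 * (N * v) * v ≤ (N * v) * w := by
    have : N * v * (2 * v) ≤ N * v * w :=
      mul_le_mul_of_nonneg_left hw (mul_nonneg (by linarith) (by linarith))
    linarith
  have h8 : w * w * v ≤ (N * v) * w := by
    have : w * (w * v) ≤ N * (w * v) :=
      mul_le_mul_of_nonneg_right hwN (mul_nonneg hw0.le (by linarith))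
    linarith
  linarith

/-- `w = l N`, `l ≥ 2` -/
theorem numB2 {v w M N K x P l : ℤ} (hl : 2 ≤ l) (hM2 : 2 ≤ M) (hlM : v = l * M)
    (hwl : w = l * N) (hN : 2 * v ≤ N) (hK : K = N * v - 2)
    (hP : P + 2 * v + w ≤ N * v + w * v)
    (hx : x + M + 1 ≤ (M - 1) * (1 + v * (v - 1)) + N * v)
    (hkey : 3 * l * v * K - v * P ≤ 2 * l ^ 2 * x) : False := by
  have hv4 : 4 ≤ v := by rw [hlM]; nlinarith
  have h1 : 3 * l * v * (N * v - 2) - v * (N * v + w * v - 2 * v - w) ≤
      2 * l ^ 2 * ((M - 1) * (v * (v - 1)) + N * v - 2) := by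
    have e1 : v * P ≤ v * (N * v + w * v - 2 * v - w) :=
      mul_le_mul_of_nonneg_left (by linarith) (by linarith)
    have e2 : 2 * l ^ 2 * x ≤ 2 * l ^ 2 * ((M - 1) * (v * (v - 1)) + N * v - 2) := by
      refine mul_le_mul_of_nonneg_left ?_ (by positivity)
      have : (M - 1) * (1 + v * (v - 1)) = (M - 1) * (v * (v - 1)) + M - 1 := by ring
      linarith
    rw [hK] at hkey
    linarith
  have h2 : l ^ 2 * (M - 1) = l * (v - l) := by rw [hlM]; ring
  have h3 : v * (2 * l - 1) * (v - l) * N - 6 * l * v + 2 * v ^ 2 + 4 * l ^ 2 ≤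
      2 * (l * (v - l)) * (v * (v - 1)) := by
    rw [← h2]
    have : 3 * l * v * (N * v - 2) - v * (N * v + w * v - 2 * v - w) -
      2 * l ^ 2 * ((M - 1) * (v * (v - 1)) + N * v - 2) =
      v * (2 * l - 1) * (v - l) * N - 6 * l * v + 2 * v ^ 2 + 4 * l ^ 2 -
      2 * (l ^ 2 * (M - 1)) * (v * (v - 1)) := by
      rw [hwl]; ring
    linarith
  have hd : l ≤ v - l := by rw [hlM]; nlinarith
  have h4 : v * (2 * l - 1) * (v - l) * (2 * v) ≤ v * (2 * l - 1) * (v - l) * N :=
    mul_le_mul_of_nonneg_left hN (mul_nonneg (mul_nonneg (by linarith) (by linarith))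
      (by linarith))
  have h5 : v * (2 * l - 1) * (v - l) * (2 * v) - 6 * l * v + 2 * v ^ 2 + 4 * l ^ 2 -
      2 * (l * (v - l)) * (v * (v - 1)) =
      2 * v ^ 2 * ((v - l) * (l - 1)) + 2 * l * v * (v - l) - 6 * l * v + 2 * v ^ 2 +
        4 * l ^ 2 := by ring
  have h6 : l ≤ (v - l) * (l - 1) := by nlinarith
  have h7 : 2 * v ^ 2 * l ≤ 2 * v ^ 2 * ((v - l) * (l - 1)) :=
    mul_le_mul_of_nonneg_left h6 (by positivity)
  have h8 : 0 ≤ 2 * l * v * (v - l) := mul_nonneg (by nlinarith) (by linarith)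
  have h9 : 6 * l * v ≤ 2 * v ^ 2 * l := by
    have : 0 ≤ 2 * l * v * (v - 3) := mul_nonneg (by nlinarith) (by linarith)
    nlinarith
  have h10 : 0 < 2 * v ^ 2 + 4 * l ^ 2 := by positivity
  linarith

end Pool.Agent.H836.HV
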