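import Mathlib
import Pool.Agent.H836.HV.PartB2

set_option autoImplicit false
set_option linter.unusedSectionVars false

/-!
# The index of the value groups is large
-/

namespace Pool.Agent.H836.HV

open Finset
open Pool.Agent.H315R3.ETC Pool.Agent.TH673.VG Pool.Agent.Q6.EV

open Classical

noncomputable section

variable {S : QData} (h : IsQuat S) [Fintype S.G]
variable {v : ℕ} (hv : ∀ a : S.G, a ≠ 1 → a ≠ S.neg → (V S a).card = v)

include h hv in
theorem card_Qs_eq {N : ℕ} (hNv : N * v = Fintype.card S.G) (hv0 : 0 < v) {b : S.G} (hb1 : b ≠ 1)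
    (hb2 : b ≠ S.neg) : (Qs S b).card = N := by
  have := card_Qs h b
  rw [hv b hb1 hb2, ← hNv] at this
  exact Nat.eq_of_mul_eq_mul_right hv0 this

include h hv in
/-- the key inequality for one element -/
theorem r_lower {k l N : ℕ} (hk : v = 2 ^ k) (hl : N = 2 ^ l)
    (hNv : N * v = Fintype.card S.G) {a : S.G} (ha1 : a ≠ 1) (ha2 : a ≠ S.neg)
    {b : S.G} (hb1 : b ≠ 1) (hb2 : b ≠ S.neg) (hb3 : b ≠ a) (hb4 : b ≠ S.neg * a)
    (hE : Qs S b ≠ Qs S a) : 2 * v ≤ N * (V S a ∩ V S b).card := by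
  have hv0 : 0 < v := by rw [hk]; positivity
  have e1 := QQ_other h hv hb3 hb4
  have c1 := card_Qs_eq h hv hNv hv0 ha1 ha2
  have c2 := card_Qs_eq h hv hNv hv0 hb1 hb2
  have e2 : (Qs S a ∩ Qs S b).card < N := by
    by_contra hc
    push Not at hc
    have e3 : Qs S a ∩ Qs S b = Qs S a := eq_of_subset_of_card_le inter_subset_left (by omega)
    have e4 : Qs S a ∩ Qs S b = Qs S b := eq_of_subset_of_card_le inter_subset_right (by omega)
    exact hE (e4.symm.trans e3)
  obtain ⟨s, _, hs⟩ := (Nat.dvd_prime_pow Nat.prime_two).1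
    (show (Qs S a ∩ Qs S b).card ∣ 2 ^ k from hk ▸ Dvd.intro _ e1)
  rw [hs, hl] at e2
  have e3 : s < l := (Nat.pow_lt_pow_iff_right (by norm_num)).1 e2
  have e4 : 2 * (Qs S a ∩ Qs S b).card ≤ N := by
    rw [hs, hl]
    calc 2 * 2 ^ s = 2 ^ (s + 1) := by rw [pow_succ]; ring
      _ ≤ 2 ^ l := Nat.pow_le_pow_right (by norm_num) e3
  calc 2 * v = (2 * (Qs S a ∩ Qs S b).card) * (V S a ∩ V S b).card := by rw [mul_assoc, e1]
    _ ≤ N * (V S a ∩ V S b).card := Nat.mul_le_mul_right _ e4

include h hv in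
theorem r_eq {N : ℕ} (hNv : N * v = Fintype.card S.G) (hv0 : 0 < v) {a : S.G} (ha1 : a ≠ 1)
    (ha2 : a ≠ S.neg) {b : S.G} (hb3 : b ≠ a) (hb4 : b ≠ S.neg * a)
    (hE : Qs S b = Qs S a) : N * (V S a ∩ V S b).card = v := by
  have e1 := QQ_other h hv hb3 hb4
  rw [hE, inter_self, card_Qs_eq h hv hNv hv0 ha1 ha2] at e1
  exact e1

include h hv in
/-- many elements have the same quaternions as `a` -/
theorem E_lower (hne : S.neg ≠ 1) {k l N : ℕ} (hk : v = 2 ^ k) (hl : N = 2 ^ l)
    (hNv : N * v = Fintype.card S.G) {a : S.G} (ha1 : a ≠ 1) (ha2 : a ≠ S.neg)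
    (ha3 : S.q a S.neg ≠ S.zero) {B : Finset S.G}
    (hB : B = univ.filter (fun x => x ≠ 1 ∧ x ≠ a ∧ x ≠ S.neg ∧ x ≠ S.neg * a)) :
    N * v + 3 * N ≤ (B.filter (fun b => Qs S b = Qs S a)).card + N * N + 6 ∧
    B.card + 4 = N * v ∧
    ∑ b ∈ B, (V S a ∩ V S b).card + 3 * v + 2 * (V S a ∩ V S S.neg).card = N * v + v * v := by
  have hv0 : 0 < v := by rw [hk]; positivity
  have hN0 : 0 < N := by rw [hl]; positivity
  obtain ⟨n1, n2, n3, n4, n5, n6⟩ := four_ne h hne ha1 ha2
  have hBc : B.card + 4 = N * v := by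
    have := sum_four n1 n2 n3 n4 n5 n6 (fun _ : S.G => 1)
    rw [← hB, sum_const, sum_const, card_univ, smul_eq_mul, smul_eq_mul, mul_one, mul_one] at this
    omega
  have hsr := sum_r' h hv ha1 ha2 ha3
  rw [sum_four n1 n2 n3 n4 n5 n6, V_inter_one h, cap_neg h, inter_self, hv a ha1 ha2,
    ← hB, ← hNv] at hsr
  obtain ⟨ρ, hρ⟩ : ∃ ρ, ρ = (V S a ∩ V S S.neg).card := ⟨_, rfl⟩
  obtain ⟨R, hR⟩ : ∃ R, R = ∑ b ∈ B, (V S a ∩ V S b).card := ⟨_, rfl⟩
  obtain ⟨e, he⟩ : ∃ e, e = (B.filter (fun b => Qs S b = Qs S a)).card := ⟨_, rfl⟩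
  rw [← hρ, ← hR] at hsr
  rw [← he, ← hρ, ← hR]
  have hsr2 : R + 3 * v + 2 * ρ = N * v + v * v := by omega
  refine ⟨?_, hBc, hsr2⟩
  -- `N ρ ≥ v`
  have hρv : v ≤ N * ρ := by
    rw [← QQ_neg h hv ha1 ha2, ← hρ]
    refine Nat.mul_le_mul_right _ ?_
    calc (Qs S a ∩ Qs S S.neg).card ≤ (Qs S a).card := card_le_card inter_subset_left
      _ = N := card_Qs_eq h hv hNv hv0 ha1 ha2
  -- the lower bound
  have hlow : 2 * v * B.card ≤ N * R + v * e := by
    have h1 : ∀ b ∈ B, 2 * v ≤ N * (V S a ∩ V S b).card + if Qs S b = Qs S a then v else 0 := by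
      intro b hb
      rw [hB, mem_filter] at hb
      obtain ⟨_, b1, b2, b3, b4⟩ := hb
      split_ifs with hE
      · rw [r_eq h hv hNv hv0 ha1 ha2 b2 b4 hE]; omega
      · rw [add_zero]
        exact r_lower h hv hk hl hNv ha1 ha2 b1 b3 b2 b4 hE
    have h2 := sum_le_sum h1
    rw [sum_const, smul_eq_mul, sum_add_distrib, ← mul_sum, ← hR, ← sum_filter, sum_const, ← he,
      smul_eq_mul] at h2
    linarith
  -- integers
  have z1 : (B.card : ℤ) + 4 = N * v := by exact_mod_cast hBc
  have z2 : (R : ℤ) + 3 * v + 2 * ρ = N * v + v * v := by exact_mod_cast hsr2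
  have z3 : (v : ℤ) ≤ N * ρ := by exact_mod_cast hρv
  have z4 : 2 * (v : ℤ) * B.card ≤ N * R + v * e := by exact_mod_cast hlow
  have z5 : (0 : ℤ) < v := by exact_mod_cast hv0
  have z6 : (B.card : ℤ) = N * v - 4 := by linarith
  have z7 : (R : ℤ) = N * v + v * v - 3 * v - 2 * ρ := by linarith
  rw [z6, z7] at z4
  have z8 : (v : ℤ) * (N * v + 3 * N - e - N * N - 6) ≤ 0 := by
    have : (v : ℤ) * (N * v + 3 * N - e - N * N - 6) =
      2 * v * (N * v - 4) - (N * (N * v + v * v - 3 * v - 2 * ρ) + v * e) + 2 * (v - N * ρ) := by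
      ring
    rw [this]
    linarith
  have z9 : (N : ℤ) * v + 3 * N - e - N * N - 6 ≤ 0 := by
    by_contra hc
    push Not at hc
    have := mul_pos z5 hc
    linarith
  have z10 : (N : ℤ) * v + 3 * N ≤ e + N * N + 6 := by linarith
  exact_mod_cast z10

include h hv in
/-- the index is larger than the order of the value groups -/
theorem partL (hne : S.neg ≠ 1) {k l N : ℕ} (hk : v = 2 ^ k) (hv8 : 8 ≤ v) (hl : N = 2 ^ l)
    (hN4 : 4 ≤ N) (hNv : N * v = Fintype.card S.G) (hwv : (V S S.neg).card ≠ v)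
    (hwG : 2 * (V S S.neg).card ≤ Fintype.card S.G)
    {a : S.G} (ha1 : a ≠ 1) (ha2 : a ≠ S.neg) (ha3 : S.q a S.neg ≠ S.zero) : 2 * v ≤ N := by
  have hv0 : 0 < v := by omega
  by_contra hcon
  have hlk : l ≤ k := by
    by_contra hc
    apply hcon
    rw [hk, hl]
    calc 2 * 2 ^ k = 2 ^ (k + 1) := by rw [pow_succ]; ring
      _ ≤ 2 ^ l := Nat.pow_le_pow_right (by norm_num) (by omega)
  obtain ⟨B, hB⟩ : ∃ B : Finset S.G,
    B = univ.filter (fun x => x ≠ 1 ∧ x ≠ a ∧ x ≠ S.neg ∧ x ≠ S.neg * a) := ⟨_, rfl⟩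
  obtain ⟨g1, g2, g3⟩ := E_lower h hv hne hk hl hNv ha1 ha2 ha3 hB
  obtain ⟨E, hE⟩ : ∃ E : Finset S.G, E = univ.filter (fun b => Qs S b = Qs S a) := ⟨_, rfl⟩
  have hmE : ∀ b, b ∈ E ↔ Qs S b = Qs S a := by intro b; rw [hE]; simp
  have haE : a ∈ E := (hmE a).2 rfl
  have cQ : ∀ {b : S.G}, b ≠ 1 → b ≠ S.neg → (Qs S b).card = N := fun hb1 hb2 =>
    card_Qs_eq h hv hNv hv0 hb1 hb2
  have hE1 : (1 : S.G) ∉ E := by
    intro hc
    have e1 := congrArg Finset.card ((hmE 1).1 hc)
    rw [Qs_one h, card_singleton, cQ ha1 ha2] at e1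
    omega
  have hE2 : S.neg ∉ E := by
    intro hc
    have e1 := congrArg Finset.card ((hmE _).1 hc)
    rw [cQ ha1 ha2] at e1
    have e2 := card_Qs h S.neg
    rw [e1, ← hNv] at e2
    exact hwv (Nat.eq_of_mul_eq_mul_left (by omega) e2)
  have hEc : (B.filter (fun b => Qs S b = Qs S a)).card + 1 ≤ E.card := by
    have : insert a (B.filter (fun b => Qs S b = Qs S a)) ⊆ E := by
      intro x hx
      rw [mem_insert, mem_filter] at hx
      rcases hx with rfl | hx
      · exact haE
      · exact (hmE x).2 hx.2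
    refine le_trans (le_of_eq ?_) (card_le_card this)
    rw [card_insert_of_notMem]
    rw [mem_filter, hB, mem_filter]
    tauto
  -- pairs in `E`
  have hpair : ∀ b ∈ E, ∀ b' ∈ E, b' ≠ b → b' ≠ S.neg * b → N * (V S b ∩ V S b').card = v := by
    intro b hb b' hb' e1 e2
    have e3 : Qs S b' = Qs S b := ((hmE _).1 hb').trans ((hmE _).1 hb).symm
    refine r_eq h hv hNv hv0 (a := b) ?_ ?_ e1 e2 e3
    · rintro rfl; exact hE1 hb
    · rintro rfl; exact hE2 hb
  rcases (by omega : l = k ∨ l + 1 ≤ k) with hlk2 | hlk2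
  · -- `N = v`
    have hNeq : N = v := by rw [hk, hl, hlk2]
    have hcount : E.card * (v - 1) ≤ 2 * (v * v - 1) := by
      have e1 : ∑ b ∈ E, ((V S b).erase 1).card = E.card * (v - 1) := by
        rw [sum_const_nat]
        intro b hb
        rw [card_erase_of_mem (one_mem_V h b), hv b ?_ ?_]
        · rintro rfl; exact hE1 hb
        · rintro rfl; exact hE2 hb
      have e2 : ∑ b ∈ E, ((V S b).erase 1).card =
          ∑ y ∈ univ.erase (1 : S.G), (E.filter (fun b => y ∈ V S b)).card := by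
        rw [← double E (univ.erase (1 : S.G)) (fun b y => y ∈ V S b)]
        refine sum_congr rfl fun b _ => ?_
        congr 1
        ext y
        simp only [mem_erase, mem_filter, mem_univ, and_true]
      have e3 : ∀ y ∈ univ.erase (1 : S.G), (E.filter (fun b => y ∈ V S b)).card ≤ 2 := by
        intro y hy
        have hy1 : y ≠ 1 := (mem_erase.1 hy).1
        rcases (E.filter (fun b => y ∈ V S b)).eq_empty_or_nonempty with h0 | ⟨b, hb⟩
        · rw [h0, card_empty]; omega
        · have : E.filter (fun b => y ∈ V S b) ⊆ {b, S.neg * b} := by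
            intro b' hb'
            rw [mem_insert, mem_singleton]
            rw [mem_filter] at hb hb'
            by_contra hc
            push Not at hc
            have e4 := hpair b hb.1 b' hb'.1 hc.1 hc.2
            rw [hNeq] at e4
            have e5 : (V S b ∩ V S b').card = 1 := by
              have : v * (V S b ∩ V S b').card = v * 1 := by rw [e4, mul_one]
              exact Nat.eq_of_mul_eq_mul_left hv0 this
            obtain ⟨z, hz⟩ := card_eq_one.1 e5
            have e6 : y ∈ V S b ∩ V S b' := mem_inter.2 ⟨hb.2, hb'.2⟩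
            have e7 : (1 : S.G) ∈ V S b ∩ V S b' :=
              mem_inter.2 ⟨one_mem_V h b, one_mem_V h b'⟩
            rw [hz, mem_singleton] at e6 e7
            exact hy1 (e6.trans e7.symm)
          exact (card_le_card this).trans card_le_two
      have e4 := sum_le_sum e3
      rw [← e2, e1, sum_const, smul_eq_mul, card_erase_of_mem (mem_univ _), card_univ, ← hNv,
        hNeq] at e4
      omega
    rw [hNeq] at g1
    have e5 : 3 * v ≤ E.card + 5 := by omega
    have e6 : v * v - 1 = (v + 1) * (v - 1) := by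
      obtain ⟨u, rfl⟩ : ∃ u, v = u + 1 := ⟨v - 1, by omega⟩
      rw [Nat.add_sub_cancel]
      have : (u + 1) * (u + 1) = (u + 1 + 1) * u + 1 := by ring
      omega
    rw [e6, ← mul_assoc] at hcount
    have e7 : E.card ≤ 2 * (v + 1) := Nat.le_of_mul_le_mul_right hcount (by omega)
    omega
  · -- `2 N ≤ v`
    have h2N : 2 * N ≤ v := by
      rw [hk, hl]
      calc 2 * 2 ^ l = 2 ^ (l + 1) := by rw [pow_succ]; ring
        _ ≤ 2 ^ k := Nat.pow_le_pow_right (by norm_num) hlk2
    have hbig : Fintype.card S.G < 2 * E.card := by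
      have e1 : 2 * (N * N) ≤ N * v := by
        calc 2 * (N * N) = N * (2 * N) := by ring
          _ ≤ N * v := Nat.mul_le_mul_left _ h2N
      rw [← hNv]
      omega
    -- every element is a product of two elements of `E`
    have hall : ∀ y : S.G, y ≠ 1 → y ≠ S.neg → y ∈ E := by
      intro y hy1 hy2
      have e1 : (E ∩ E.image (fun b => y * b)).Nonempty := by
        rw [← card_pos]
        have e2 : (E.image (fun b => y * b)).card = E.card :=
          card_image_of_injective _ (mul_right_injective y)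
        have e3 := card_union_add_card_inter E (E.image (fun b => y * b))
        have e4 : (E ∪ E.image (fun b => y * b)).card ≤ Fintype.card S.G := card_le_univ _
        omega
      obtain ⟨b, hb⟩ := e1
      rw [mem_inter, mem_image] at hb
      obtain ⟨hb, b', hb', e2⟩ := hb
      -- `y = b b'`
      have e3 : y = b * b' := by rw [← e2, mul_assoc, h.exp2, mul_one]
      have e4 : b' ≠ b := by
        intro e
        rw [e, h.exp2] at e3
        exact hy1 e3
      have e5 : b' ≠ S.neg * b := by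
        intro e
        rw [e, mul_neg_self h] at e3
        exact hy2 e3
      have e6 := hpair b hb b' hb' e4 e5
      have hb1 : b ≠ 1 := by rintro rfl; exact hE1 hb
      have hb2 : b ≠ S.neg := by rintro rfl; exact hE2 hb
      have hb1' : b' ≠ 1 := by rintro rfl; exact hE1 hb'
      have hb2' : b' ≠ S.neg := by rintro rfl; exact hE2 hb'
      have e7 := card_QQ h b y
      have e8 : V S b ∩ V S y = V S b ∩ V S b' := by rw [e3, cap_mul h]
      have e9 : b * y = b' := by rw [e3, ← mul_assoc, h.exp2, one_mul]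
      rw [e8, e9, hv b' hb1' hb2', ← e6] at e7
      have e10 : 0 < (V S b ∩ V S b').card := one_mem_cap h b b'
      have e11 : (Qs S b ∩ Qs S y).card = N := Nat.eq_of_mul_eq_mul_right e10 e7
      have c1 := cQ hb1 hb2
      have c2 := cQ hy1 hy2
      have e12 : Qs S b ∩ Qs S y = Qs S b :=
        eq_of_subset_of_card_le inter_subset_left (by omega)
      have e13 : Qs S b ∩ Qs S y = Qs S y :=
        eq_of_subset_of_card_le inter_subset_right (by omega)
      exact (hmE y).2 ((e13.symm.trans e12).trans ((hmE b).1 hb))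
    -- the conclusion
    have f1 : N * (V S a ∩ V S S.neg).card = (V S S.neg).card := by
      have e1 := QQ_nega h a
      have e2 : Qs S (S.neg * a) = Qs S a :=
        (hmE _).1 (hall _ (neg_ne_one h ha2) (neg_ne_neg h ha1))
      rw [e2, inter_self, cQ ha1 ha2] at e1
      exact e1
    have f2 : N * ∑ b ∈ B, (V S a ∩ V S b).card = B.card * v := by
      rw [mul_sum, ← smul_eq_mul, ← sum_const]
      refine sum_congr rfl fun b hb => ?_
      rw [hB, mem_filter] at hb
      obtain ⟨_, b1, b2, b3, b4⟩ := hb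
      exact r_eq h hv hNv hv0 ha1 ha2 b2 b4 ((hmE _).1 (hall b b1 b3))
    obtain ⟨R, hR⟩ : ∃ R, R = ∑ b ∈ B, (V S a ∩ V S b).card := ⟨_, rfl⟩
    obtain ⟨ρ, hρ⟩ : ∃ ρ, ρ = (V S a ∩ V S S.neg).card := ⟨_, rfl⟩
    obtain ⟨w, hw⟩ : ∃ w, w = (V S S.neg).card := ⟨_, rfl⟩
    rw [← hR] at f2 g3
    rw [← hρ] at f1 g3
    rw [← hw] at f1 hwG
    rw [← hNv] at hwG
    have z1 : (N : ℤ) * ρ = w := by exact_mod_cast f1
    have z2 : (N : ℤ) * R = B.card * v := by exact_mod_cast f2
    have z3 : (B.card : ℤ) = N * v - 4 := by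
      have : (B.card : ℤ) + 4 = N * v := by exact_mod_cast g2
      linarith
    have z4 : (R : ℤ) = N * v + v * v - 3 * v - 2 * ρ := by
      have : (R : ℤ) + 3 * v + 2 * ρ = N * v + v * v := by exact_mod_cast g3
      linarith
    have z5 : 2 * (w : ℤ) ≤ N * v := by exact_mod_cast hwG
    have z6 : (4 : ℤ) ≤ N := by exact_mod_cast hN4
    have z7 : (8 : ℤ) ≤ v := by exact_mod_cast hv8
    rw [z3, z4] at z2
    have z8 : 2 * (w : ℤ) = v * (N * N - 3 * N + 4) := by
      rw [← z1]
      linarith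
    have z9 : (v : ℤ) * ((N - 2) * (N - 2)) ≤ 0 := by
      have : (v : ℤ) * ((N - 2) * (N - 2)) = v * (N * N - 3 * N + 4) - N * v := by ring
      rw [this]
      linarith
    have z10 : 0 < (v : ℤ) * ((N - 2) * (N - 2)) :=
      mul_pos (by linarith) (mul_pos (by linarith) (by linarith))
    linarith

end

end Pool.Agent.H836.HV
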