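import Mathlib
import Pool.Agent.H836.HV.PartL

set_option autoImplicit false
set_option linter.unusedSectionVars false

/-!
# The counting theorem
-/

namespace Pool.Agent.H836.HV

open Finset
open Pool.Agent.H315R3.ETC Pool.Agent.TH673.VG Pool.Agent.Q6.EV

open Classical

noncomputable section

variable {S : QData} (h : IsQuat S) [Fintype S.G]
variable {v : ℕ} (hv : ∀ a : S.G, a ≠ 1 → a ≠ S.neg → (V S a).card = v)

include h hv in
/-- **The counting theorem**: if the value groups `V(a)`, `a ≠ 1, -1`, have `v` elements, then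
`|V(-1)|` is `v` or `|G|`, or `v ≤ 4`, or `|G| ≤ 2 v`. -/
theorem small_or_large (hwv : (V S S.neg).card ≠ v)
    (hwG : (V S S.neg).card < Fintype.card S.G) : v ≤ 4 ∨ Fintype.card S.G ≤ 2 * v := by
  by_contra hcon
  push Not at hcon
  obtain ⟨hv5, hG⟩ := hcon
  have hne : S.neg ≠ 1 := by
    intro e
    rw [e, V_one h, card_univ] at hwG
    exact lt_irrefl _ hwG
  obtain ⟨n, hn⟩ := card_pow h
  -- half
  have hhalf : ∀ {u : ℕ}, u ∣ Fintype.card S.G → u < Fintype.card S.G →
      ∃ j, u = 2 ^ j ∧ 2 * u ≤ Fintype.card S.G := by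
    intro u hu hu2
    rw [hn] at hu
    obtain ⟨j, _, hj⟩ := (Nat.dvd_prime_pow Nat.prime_two).1 hu
    refine ⟨j, hj, ?_⟩
    rw [hn, hj] at hu2
    have : j < n := (Nat.pow_lt_pow_iff_right (by norm_num)).1 hu2
    rw [hj, hn]
    calc 2 * 2 ^ j = 2 ^ (j + 1) := by rw [pow_succ]; ring
      _ ≤ 2 ^ n := Nat.pow_le_pow_right (by norm_num) this
  obtain ⟨j, hj, hw2⟩ := hhalf (V_dvd h S.neg) hwG
  -- an element `a`
  obtain ⟨a, ha1, ha2, ha3⟩ : ∃ a : S.G, a ≠ 1 ∧ a ≠ S.neg ∧ S.q a S.neg ≠ S.zero := by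
    by_contra hc
    push Not at hc
    have : (univ : Finset S.G) ⊆ insert S.neg (V S S.neg) := by
      intro a _
      rw [mem_insert]
      by_cases e1 : a = S.neg
      · exact Or.inl e1
      · right
        by_cases e2 : a = 1
        · rw [e2]; exact one_mem_V h _
        · rw [mem_V, h.qs2]; exact hc a e2 e1
    have e1 := card_le_card this
    have e2 := card_insert_le S.neg (V S S.neg)
    rw [card_univ] at e1
    omega
  have hva := hv a ha1 ha2
  obtain ⟨k, hk, _⟩ := hhalf (hva ▸ V_dvd h a) (by omega)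
  obtain ⟨N, hN⟩ : ∃ N, N = (Qs S a).card := ⟨_, rfl⟩
  have hNv : N * v = Fintype.card S.G := by rw [hN, ← hva, card_Qs h]
  have hNdvd : N ∣ 2 ^ n := by rw [← hn]; exact Dvd.intro _ hNv
  obtain ⟨l, _, hl⟩ := (Nat.dvd_prime_pow Nat.prime_two).1 hNdvd
  have hN3 : 2 < N := by
    by_contra hc
    push Not at hc
    have : N * v ≤ 2 * v := Nat.mul_le_mul_right _ hc
    omega
  have hl2 : 2 ≤ l := by
    by_contra hc
    rcases (by omega : l = 0 ∨ l = 1) with e | e <;> rw [e] at hl <;> omega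
  have hN4 : 4 ≤ N := by
    rw [hl]
    calc 4 = 2 ^ 2 := by norm_num
      _ ≤ 2 ^ l := Nat.pow_le_pow_right (by norm_num) hl2
  have hk3 : 3 ≤ k := by
    by_contra hc
    rcases (by omega : k = 0 ∨ k = 1 ∨ k = 2) with e | e | e <;> rw [e] at hk <;> omega
  have hv8 : 8 ≤ v := by
    rw [hk]
    calc 8 = 2 ^ 3 := by norm_num
      _ ≤ 2 ^ k := Nat.pow_le_pow_right (by norm_num) hk3
  have hL := partL h hv hne hk hv8 hl hN4 hNv hwv hw2 ha1 ha2 ha3
  rcases lt_or_gt_of_ne hwv with hlt | hgt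
  · -- `w < v`
    have h2w : 2 * (V S S.neg).card ≤ v := by
      rw [hj, hk] at hlt
      have : j < k := (Nat.pow_lt_pow_iff_right (by norm_num)).1 hlt
      rw [hj, hk]
      calc 2 * 2 ^ j = 2 ^ (j + 1) := by rw [pow_succ]; ring
        _ ≤ 2 ^ k := Nat.pow_le_pow_right (by norm_num) this
    have hvG : v * v ≤ Fintype.card S.G := by
      rw [← hNv]
      exact Nat.mul_le_mul_right _ (by omega)
    obtain ⟨b, hb1, hb2, hb3, hb4⟩ := exists_a h hv h2w hvG
    exact partA h hv hne h2w (by omega) hb1 hb2 hb3 hb4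
  · -- `w > v`
    have h2v : 2 * v ≤ (V S S.neg).card := by
      rw [hj, hk] at hgt
      have : k < j := (Nat.pow_lt_pow_iff_right (by norm_num)).1 hgt
      rw [hj, hk]
      calc 2 * 2 ^ k = 2 ^ (k + 1) := by rw [pow_succ]; ring
        _ ≤ 2 ^ j := Nat.pow_le_pow_right (by norm_num) this
    exact partB h hv hne hk (by omega) hl hNv hL hj h2v hw2

end

end Pool.Agent.H836.HV
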