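import Mathlib
import Pool.Agent.H836.HV.Count
import Pool.Graph.R_pool_sql_team_seeded_3997aac3.Q6.EV.Final2
import Pool.Graph.R_pool_sql_team_seeded_5cf16337.Results.MP_d26ff6_al.SmallOrHalf

set_option autoImplicit false
set_option linter.unusedSectionVars false

/-!
# Value groups of equal order, apart from `V(-1)`: the theorem
-/

namespace Pool.Agent.H836.HV

open Finset
open Pool.Agent.H315R3.ETC Pool.Agent.TH673.VG Pool.Agent.Q6.EV

open Classical

noncomputable section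

/-- the nondegenerate case: the bound -/
theorem core_bound {S : QData} (h : IsQuat S) [Fintype S.G]
    (hnd : ∀ a : S.G, (∀ x, S.q a x = S.zero) → a = 1) {v : ℕ}
    (hv : ∀ a : S.G, a ≠ 1 → a ≠ S.neg → (V S a).card = v) :
    v ≤ 4 ∨ Fintype.card S.G ≤ 2 * v := by
  by_cases hw : S.neg = 1 ∨ (V S S.neg).card = v
  · have hv' : ∀ a : S.G, a ≠ 1 → (V S a).card = v := by
      intro a ha
      by_cases e : a = S.neg
      · rcases hw with hw | hw
        · exact absurd (e.trans hw) ha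
        · rw [e]; exact hw
      · exact hv a ha e
    exact (Pool.Agent.Q6.EV.small_or_large h hv').imp_left (fun e => by omega)
  · push Not at hw
    refine small_or_large h hv hw.2 (lt_of_le_of_ne (card_le_univ _) fun e => hw.1 ?_)
    have e1 : V S S.neg = univ := by rwa [card_eq_iff_eq_univ] at e
    refine hnd _ fun x => ?_
    rw [← mem_V, e1]
    exact mem_univ x

theorem ncard_V {S : QData} [Fintype S.G] (a : S.G) :
    {b : S.G | S.q a b = S.zero}.ncard = (V S a).card := by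
  rw [← Set.ncard_coe_finset]
  congr 1
  ext x
  rw [mem_coe, mem_V]
  exact Iff.rfl

/-- the nondegenerate case -/
theorem core {S : QData} (h : IsQuat S) [Fintype S.G]
    (hnd : ∀ a : S.G, (∀ x, S.q a x = S.zero) → a = 1) {v : ℕ}
    (hv : ∀ a : S.G, a ≠ 1 → a ≠ S.neg → (V S a).card = v) : Elem S := by
  refine Pool.Agent.Results.MP_d26ff6_al.SmallOrHalf.result S h inferInstance fun a h1 h2 => ?_
  rw [ncard_V, hv a h1 h2, Nat.card_eq_fintype_card]
  exact core_bound h hnd hv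

/-- elementary type passes from the quotient by the radical to the structure -/
theorem elem_of_quo {S : QData} (h : IsQuat S) [Finite S.G] (hq : Elem (Quo h)) : Elem S := by
  refine elem_of_stepAll h fun H hH => ?_
  by_cases hR : Rad h ≤ H
  swap
  · obtain ⟨r, hr, hrH⟩ := SetLike.not_le_iff_exists.1 hR
    exact ⟨r, hrH, fun g _ x _ => ⟨x, 1, hr x, H.one_mem, mul_one x⟩⟩
  have hcm : (H.map (pi h)).comap (pi h) = H := by
    rw [Subgroup.comap_map_eq, pi_ker, sup_eq_left.2 hR]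
  have hH' : H.map (pi h) ≠ ⊤ := by
    intro e
    rw [e, Subgroup.comap_top] at hcm
    exact hH hcm.symm
  obtain ⟨a', ha', hs⟩ := stepAll_of_elem (quo_isQuat h) hq (H.map (pi h)) hH'
  obtain ⟨a, rfl⟩ := pi_surj h a'
  refine ⟨a, fun e => ha' (Subgroup.mem_map_of_mem _ e), fun g hg x hx => ?_⟩
  obtain ⟨y', z', h1, h2, h3⟩ := hs (pi h g) (Subgroup.mem_map_of_mem _ hg) (pi h x) (by
    rw [← map_mul, pi_q]; exact hx)
  obtain ⟨y, rfl⟩ := pi_surj h y'
  obtain ⟨z, hz, rfl⟩ := Subgroup.mem_map.1 h2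
  refine ⟨y, y * x, (pi_q h a y).symm.trans h1, ?_, ?_⟩
  · have e1 : pi h (y * x) = pi h z := by
      rw [map_mul, ← h3, ← mul_assoc, (quo_isQuat h).exp2, one_mul]
    rw [← hcm, Subgroup.mem_comap, e1]
    exact Subgroup.mem_map_of_mem _ hz
  · rw [← mul_assoc, h.exp2, one_mul]

theorem quo_nondeg {S : QData} (h : IsQuat S) (a : (Quo h).G)
    (ha : ∀ x, (Quo h).q a x = (Quo h).zero) : a = 1 := by
  obtain ⟨b, rfl⟩ := pi_surj h a
  rw [pi_one]
  intro x
  exact (pi_q h b x).symm.trans (ha (pi h x))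

theorem card_quo {S : QData} (h : IsQuat S) [Fintype S.G] [Fintype (Quo h).G] (a : S.G) :
    (V S a).card = (V (Quo h) (pi h a)).card * Nat.card (Rad h) := by
  have e1 := (D h a).card_mul_index
  have e2 := (D (quo_isQuat h) (pi h a)).card_mul_index
  rw [quo_index h, card_D] at e2
  have e3 : Nat.card S.G = Nat.card (Quo h).G * Nat.card (Rad h) :=
    Subgroup.card_eq_card_quotient_mul_card_subgroup (Rad h)
  rw [e3, ← e2, card_D] at e1
  have hpos : 0 < (D h a).index := Nat.pos_of_ne_zero Subgroup.FiniteIndex.index_ne_zero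
  refine Nat.eq_of_mul_eq_mul_right hpos ?_
  rw [e1]
  ring

/-- **Main theorem** -/
theorem main' {S : QData} (h : IsQuat S) (hfin : Finite S.G)
    (heq : ∀ a b : S.G, (∃ x, S.q a x ≠ S.zero) → (∃ x, S.q (S.neg * a) x ≠ S.zero) →
      (∃ x, S.q b x ≠ S.zero) → (∃ x, S.q (S.neg * b) x ≠ S.zero) →
      {x : S.G | S.q a x = S.zero}.ncard = {x : S.G | S.q b x = S.zero}.ncard) :
    Elem S ∧ ∀ a : S.G, (∃ x, S.q a x ≠ S.zero) → (∃ x, S.q (S.neg * a) x ≠ S.zero) →
      {x : S.G | S.q a x = S.zero}.ncard ≤ 4 * {r : S.G | ∀ x, S.q r x = S.zero}.ncard ∨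
      Nat.card S.G ≤ 2 * {x : S.G | S.q a x = S.zero}.ncard := by
  have : Fintype S.G := Fintype.ofFinite _
  have hfq : Finite (Quo h).G := Finite.of_surjective _ (pi_surj h)
  have : Fintype (Quo h).G := Fintype.ofFinite _
  have hQ := quo_isQuat h
  have hR : ∀ a : S.G, pi h a ≠ 1 ↔ ∃ x, S.q a x ≠ S.zero := by
    intro a
    rw [Ne, pi_one, mem_Rad]
    push Not
    exact Iff.rfl
  have hN : ∀ a : S.G, pi h a ≠ (Quo h).neg ↔ ∃ x, S.q (S.neg * a) x ≠ S.zero := by
    intro a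
    rw [← hR, map_mul]
    have e0 : pi h S.neg = (Quo h).neg := rfl
    rw [e0]
    constructor
    · intro e1 e2
      exact e1 (eq_of_mul hQ _ _ e2).symm
    · intro e1 e2
      apply e1
      rw [e2, hQ.exp2]
  have hr0 : 0 < Nat.card (Rad h) := Nat.card_pos
  obtain ⟨v, hv⟩ : ∃ v, ∀ x : (Quo h).G, x ≠ 1 → x ≠ (Quo h).neg → (V (Quo h) x).card = v := by
    by_cases hex : ∃ x : (Quo h).G, x ≠ 1 ∧ x ≠ (Quo h).neg
    · obtain ⟨x0, h1, h2⟩ := hex
      refine ⟨(V (Quo h) x0).card, fun x h3 h4 => ?_⟩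
      obtain ⟨a, rfl⟩ := pi_surj h x
      obtain ⟨b, rfl⟩ := pi_surj h x0
      have e1 := heq a b ((hR a).1 h3) ((hN a).1 h4) ((hR b).1 h1) ((hN b).1 h2)
      rw [ncard_V, ncard_V, card_quo h a, card_quo h b] at e1
      exact Nat.eq_of_mul_eq_mul_right hr0 e1
    · push Not at hex
      exact ⟨0, fun x h1 h2 => absurd (hex x h1) h2⟩
  refine ⟨elem_of_quo h (core hQ (quo_nondeg h) hv), fun a h1 h2 => ?_⟩
  have e1 : {r : S.G | ∀ x, S.q r x = S.zero}.ncard = Nat.card (Rad h) := rfl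
  have e3 : Nat.card S.G = Nat.card (Quo h).G * Nat.card (Rad h) :=
    Subgroup.card_eq_card_quotient_mul_card_subgroup (Rad h)
  have e4 : Nat.card (Quo h).G = Fintype.card (Quo h).G := Nat.card_eq_fintype_card
  rw [e1, ncard_V, card_quo h a, hv _ ((hR a).2 h1) ((hN a).2 h2), e3, e4, ← mul_assoc]
  exact (core_bound hQ (quo_nondeg h) hv).imp (Nat.mul_le_mul_right _) (Nat.mul_le_mul_right _)

end

end Pool.Agent.H836.HV
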