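import Mathlib
import Pool.Agent.H836.HV.Final
import Pool.Agent.H836.HV.Quad
import Pool.Graph.R_seed8.TH673.VG.FieldInd

set_option autoImplicit false
set_option linter.unusedSectionVars false

/-!
# Fields whose quadratic extensions have equally many square classes
-/

namespace Pool.Agent.H836.HV

open Pool.Agent.H315R3.ETC Pool.Agent.TH188.ET Pool.Agent.TH673.VG

universe u

theorem field_main {F : Type u} [Field F] (h2 : (2 : F) ≠ 0) (hfin : FinSq F) {m : ℕ}
    (hm : ∀ a : Fˣ, normGroup a ≠ ⊤ → normGroup (-a) ≠ ⊤ →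
      ∀ (K : Type u) [Field K] [Algebra F K], Module.finrank F K = 2 →
        IsSquare (algebraMap F K a) → sqClasses K = m) :
    (∃ S : QData, Elem S ∧ IsStructureOf F S) ∧
    ((∃ a : Fˣ, normGroup a ≠ ⊤ ∧ normGroup (-a) ≠ ⊤) →
      m ≤ 2 * sqClasses F * (sqs F).relIndex (⨅ b : Fˣ, normGroup b) ∨
      sqClasses F ^ 2 ≤ 4 * m) := by
  obtain ⟨S, hS, hSfin, hSq, -, -⟩ := field_core h2 hfin
  obtain ⟨φ, hs, hk, hn, h0, hq⟩ := id hS
  have hz : ∀ a b : Fˣ, S.q (φ a) (φ b) = S.zero ↔ NormFrom a b := by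
    intro a b
    rw [← qiso_one h2, ← h0, ← map_one φ]
    exact hq a b 1 1
  have hcomap : ∀ a : Fˣ, (D hSq (φ a)).comap φ = normGroup a := by
    intro a
    ext x
    rw [Subgroup.mem_comap]
    exact hz a x
  have hker : φ.ker = sqs F := by
    ext x
    rw [MonoidHom.mem_ker, hk, mem_sqs]
  have hG : Nat.card S.G = sqClasses F := by
    rw [sqClasses, ← hker, Subgroup.index_ker, MonoidHom.range_eq_top.2 hs, Subgroup.card_top]
  have hV : ∀ a : Fˣ, {x : S.G | S.q (φ a) x = S.zero}.ncard =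
      (sqs F).relIndex (normGroup a) := by
    intro a
    rw [← hker, Subgroup.relIndex_ker, ← hcomap a, Subgroup.map_comap_eq_self_of_surjective hs]
    rfl
  have htop : ∀ a : Fˣ, normGroup a ≠ ⊤ ↔ ∃ x, S.q (φ a) x ≠ S.zero := by
    intro a
    constructor
    · intro h
      by_contra hc
      push Not at hc
      apply h
      rw [eq_top_iff]
      intro x _
      exact (hz a x).1 (hc (φ x))
    · rintro ⟨x, hx⟩ h
      obtain ⟨y, rfl⟩ := hs x
      apply hx
      rw [hz]
      have : y ∈ normGroup a := by rw [h]; exact Subgroup.mem_top y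
      exact this
  have hneg : ∀ a : Fˣ, φ (-a) = S.neg * φ a := by
    intro a
    rw [← hn, ← map_mul, neg_one_mul]
  have hq0 : 0 < sqClasses F := by
    rw [← hG]
    have : Nonempty S.G := ⟨1⟩
    exact Nat.card_pos
  -- the number of square classes of `F(√a)`
  have hcl : ∀ a : Fˣ, normGroup a ≠ ⊤ → normGroup (-a) ≠ ⊤ →
      2 * m = sqClasses F * (sqs F).relIndex (normGroup a) := by
    intro a h3 h4
    have hns : ∀ r : F, r ^ 2 ≠ (a : F) := by
      intro r hr
      apply h3
      rw [eq_top_iff]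
      intro c _
      have hr0 : r ≠ 0 := by
        rintro rfl
        exact a.ne_zero (by rw [← hr]; ring)
      refine ⟨((c : F) + 1) / 2, ((c : F) - 1) / (2 * r), ?_⟩
      rw [← hr]
      field_simp
      ring
    have : Fact (∀ r : F, r ^ 2 ≠ (a : F) + 0 * r) := ⟨fun r => by
      rw [zero_mul, add_zero]
      exact hns r⟩
    have e1 : Module.finrank F (QE a) = 2 := QuadraticAlgebra.finrank_eq_two _ _
    have e2 : IsSquare (algebraMap F (QE a) a) :=
      ⟨QuadraticAlgebra.omega, by rw [QuadraticAlgebra.omega_mul_omega_eq_mk]; rfl⟩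
    rw [← sqClasses_quadratic h2 h3 (QE a) e1 e2, hm a h3 h4 (QE a) e1 e2]
  obtain ⟨h1, h3⟩ := main' hSq hSfin (by
    intro a b ha ha' hb hb'
    obtain ⟨a, rfl⟩ := hs a
    obtain ⟨b, rfl⟩ := hs b
    rw [← hneg, ← htop] at ha' hb'
    rw [← htop] at ha hb
    rw [hV, hV]
    have e1 := hcl a ha ha'
    rw [hcl b hb hb'] at e1
    exact (Nat.eq_of_mul_eq_mul_left hq0 e1).symm)
  refine ⟨⟨S, h1, hS⟩, ?_⟩
  rintro ⟨a, h4, h5⟩
  have hR : (⨅ b : Fˣ, normGroup b) = (Pool.Agent.Q6.EV.Rad hSq).comap φ := by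
    ext x
    rw [Subgroup.mem_iInf, Subgroup.mem_comap, Pool.Agent.Q6.EV.mem_Rad]
    constructor
    · intro h y
      obtain ⟨b, rfl⟩ := hs y
      rw [hSq.qs2]
      exact (hz b x).2 (h b)
    · intro h b
      exact (hz b x).1 (by rw [hSq.qs2]; exact h (φ b))
  have hRc : {r : S.G | ∀ x, S.q r x = S.zero}.ncard =
      (sqs F).relIndex (⨅ b : Fˣ, normGroup b) := by
    rw [← hker, Subgroup.relIndex_ker, hR, Subgroup.map_comap_eq_self_of_surjective hs]
    rfl
  have h6 := h3 (φ a) ((htop a).1 h4) (by rw [← hneg]; exact (htop _).1 h5)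
  rw [hV, hRc, hG] at h6
  have h7 := hcl a h4 h5
  rcases h6 with h6 | h6
  · left
    have h8 : 2 * m ≤ 2 * (2 * sqClasses F * (sqs F).relIndex (⨅ b : Fˣ, normGroup b)) := by
      rw [h7]
      calc sqClasses F * (sqs F).relIndex (normGroup a)
          ≤ sqClasses F * (4 * (sqs F).relIndex (⨅ b : Fˣ, normGroup b)) :=
            Nat.mul_le_mul_left _ h6
        _ = _ := by ring
    omega
  · right
    calc sqClasses F ^ 2 = sqClasses F * sqClasses F := pow_two _
      _ ≤ sqClasses F * (2 * (sqs F).relIndex (normGroup a)) := Nat.mul_le_mul_left _ h6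
      _ = 2 * (sqClasses F * (sqs F).relIndex (normGroup a)) := by ring
      _ = 4 * m := by rw [← h7]; ring

end Pool.Agent.H836.HV
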